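import Pool.Agent.R804.KServer.Final

/-!
# MP_ff2559_lc: the delayed k-server problem is competitive in every metric space

For every `k ≥ 2`, every metric space `M`, every initial configuration and every choice of the
initially frozen server there is a deterministic online algorithm for the delayed `k`-server
problem which is `(2k-1)`-competitive.  In particular for every `k ≥ 3` there is a finite constant
`C_k = 2k-1` which bounds the competitiveness of the delayed `k`-server problem in all metric
spaces.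
-/

set_option autoImplicit false

namespace Pool.Agent.Results.MP_ff2559_lc.Competitive

open Pool.Agent.R804.KServer

universe u

theorem result :
    (∀ k : ℕ, 3 ≤ k → ∃ C : ℝ, ∀ (M : Type u) [MetricSpace M] (c₀ : Fin k → M) (f₀ : Fin k),
      delayedCompetitiveness c₀ f₀ ≤ (C : EReal)) ∧
    (∀ k : ℕ, 2 ≤ k → ∀ (M : Type u) [MetricSpace M] (c₀ : Fin k → M) (f₀ : Fin k),
      (∃ A : DelayedAlgorithm M k c₀ f₀, A.Competitive (2 * k - 1)) ∧
      delayedCompetitiveness c₀ f₀ ≤ ((2 * k - 1 : ℝ) : EReal)) := by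
  have main : ∀ k : ℕ, 2 ≤ k → ∀ (M : Type u) [MetricSpace M] (c₀ : Fin k → M) (f₀ : Fin k),
      (∃ A : DelayedAlgorithm M k c₀ f₀, A.Competitive (2 * k - 1)) ∧
      delayedCompetitiveness c₀ f₀ ≤ ((2 * k - 1 : ℝ) : EReal) := by
    intro k hk M _ c₀ f₀
    haveI : NeZero k := ⟨by omega⟩
    have hA : ∃ A : DelayedAlgorithm M k c₀ f₀, A.Competitive (2 * k - 1) :=
      ⟨alg hk c₀ f₀, alg_competitive hk c₀ f₀⟩
    have hk2 : (2 : ℝ) ≤ k := by exact_mod_cast hk
    exact ⟨hA, iInf₂_le (2 * (k : ℝ) - 1) ⟨by linarith, hA⟩⟩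
  exact ⟨fun k hk => ⟨2 * k - 1, fun M _ c₀ f₀ => (main k (by omega) M c₀ f₀).2⟩, main⟩

end Pool.Agent.Results.MP_ff2559_lc.Competitive
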